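import Mathlib
import Pool.Agent.R828.NoethEx

/-!
# Lowering the rank of a Noetherian base by passing to a subfamily (MP_5675d3_gt)

There is a zero-dimensional Hausdorff space with a Noetherian base `ℬ` of rank `ω + 1` such that
every base contained in `ℬ` has rank `ω + 1` as well.
-/

namespace Pool.Agent.Results.MP_5675d3_gt.NoSmallSubfamily

open Pool.Agent.R828.NR

universe u

/-- A Noetherian base of a topological space: a base which is a Noetherian family. -/
def IsNoetherianBase {X : Type u} [TopologicalSpace X] (ℬ : Set (Set X)) : Prop :=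
  TopologicalSpace.IsTopologicalBasis ℬ ∧ IsNoetherianFamily ℬ

/-- The ordinal `α` is a cardinal (an initial ordinal). -/
def IsCard (α : Ordinal.{u}) : Prop := ∃ c : Cardinal.{u}, α = c.ord

/-- **Main result**: there are a Hausdorff space `X` and a Noetherian base `ℬ` of `X`, consisting of
clopen sets, whose rank `ω + 1` is not a cardinal, such that every Noetherian base `ℬ' ⊆ ℬ` of `X`
has rank `ω + 1`, which is greater than `|rank ℬ|`. -/
theorem result : ∃ (X : Type) (_ : TopologicalSpace X) (ℬ : Set (Set X)), T2Space X ∧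
    (∀ S ∈ ℬ, IsClopen S) ∧ IsNoetherianBase ℬ ∧ rank ℬ = Ordinal.omega0 + 1 ∧
    ¬ IsCard (rank ℬ) ∧
    ∀ ℬ' ⊆ ℬ, IsNoetherianBase ℬ' → rank ℬ' = rank ℬ ∧ (rank ℬ).card.ord < rank ℬ' := by
  have h0 : (Ordinal.omega0 + 1 : Ordinal.{0}).card.ord = Ordinal.omega0 := by
    rw [Ordinal.card_add, Ordinal.card_omega0, Ordinal.card_one,
      Cardinal.add_one_eq le_rfl, Cardinal.ord_aleph0]
  have hr : rank R828.NE.Bs = Ordinal.omega0 + 1 :=
    R828.NE.rank_eq _ subset_rfl R828.NE.basis
  refine ⟨R828.NE.Sp, inferInstance, R828.NE.Bs, inferInstance, fun S hS => R828.NE.isClopen hS,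
    ⟨R828.NE.basis, R828.NE.noeth _ subset_rfl R828.NE.basis⟩, hr, ?_, ?_⟩
  · rintro ⟨c, hc⟩
    rw [hr] at hc
    have h1 : (Ordinal.omega0 + 1 : Ordinal.{0}).card.ord = Ordinal.omega0 + 1 := by
      rw [hc, Cardinal.card_ord]
    rw [h0] at h1
    exact absurd h1 (lt_add_one _).ne
  · rintro ℬ' hℬ' ⟨hb, _⟩
    have hr' := R828.NE.rank_eq ℬ' hℬ' hb
    rw [hr, hr', h0]
    exact ⟨rfl, lt_add_one _⟩

end Pool.Agent.Results.MP_5675d3_gt.NoSmallSubfamily
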